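import Mathlib

/-!
# Projectional skeletons and projectional generators
-/

set_option autoImplicit false
set_option linter.unusedSectionVars false

namespace Pool.Agent.Q33.PSk

open Set Filter Topology

universe u

/-- A projectional skeleton on the Banach space `X`, indexed by the up-directed partially ordered
set `Γ`. -/
structure Skeleton (X : Type u) [NormedAddCommGroup X] [NormedSpace ℝ X] (Γ : Type u)
    [PartialOrder Γ] where
  /-- the projections -/
  P : Γ → X →L[ℝ] X
  proj : ∀ s, (P s).comp (P s) = P s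
  directed : ∀ s t : Γ, ∃ u, s ≤ u ∧ t ≤ u
  separable : ∀ s, TopologicalSpace.IsSeparable (Set.range (P s))
  comp : ∀ s t, s ≤ t → (P s).comp (P t) = P s ∧ (P t).comp (P s) = P s
  sup : ∀ g : ℕ → Γ, Monotone g → ∃ s, IsLUB (Set.range g) s ∧
    Set.range (P s) = closure (⋃ n, Set.range (P (g n)))
  cover : (⋃ s, Set.range (P s)) = Set.univ

section

variable {X : Type u} [NormedAddCommGroup X] [NormedSpace ℝ X] {Γ : Type u} [PartialOrder Γ]

/-- the subset of the dual induced by the skeleton -/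
def Skeleton.induced (S : Skeleton X Γ) : Set (StrongDual ℝ X) :=
  ⋃ s, Set.range (fun f : StrongDual ℝ X => f.comp (S.P s))

/-- the projections are uniformly bounded -/
def Skeleton.Bounded (S : Skeleton X Γ) : Prop := ∃ C : ℝ, ∀ s, ‖S.P s‖ ≤ C

/-- `Φ` is obtained by the recipe: `Φ f` is a countable dense subset of the range of `P_s`, where
`s = s(f)` is chosen such that `f ∘ P_s = f`. -/
def Skeleton.Recipe (S : Skeleton X Γ) (Φ : StrongDual ℝ X → Set X) : Prop :=
  ∃ s : StrongDual ℝ X → Γ, ∀ f ∈ S.induced, f.comp (S.P (s f)) = f ∧ (Φ f).Countable ∧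
    Φ f ⊆ Set.range (S.P (s f)) ∧ Set.range (S.P (s f)) ⊆ closure (Φ f)

/-- norming subsets of the dual -/
def IsNorming (D : Set (StrongDual ℝ X)) : Prop :=
  ∃ c : ℝ, 0 < c ∧ ∀ x : X, c * ‖x‖ ≤ sSup {t : ℝ | ∃ f ∈ D, ‖f‖ ≤ 1 ∧ t = |f x|}

/-- the weak-star closure of a subset of the dual -/
def weakStarClosure (S : Set (StrongDual ℝ X)) : Set (StrongDual ℝ X) :=
  {f | (StrongDual.toWeakDual f : WeakDual ℝ X) ∈
    closure (StrongDual.toWeakDual '' S : Set (WeakDual ℝ X))}

/-- `(D, Φ)` is a projectional generator. -/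
def IsGenerator (D : Set (StrongDual ℝ X)) (Φ : StrongDual ℝ X → Set X) : Prop :=
  (∃ V : Submodule ℝ (StrongDual ℝ X), (V : Set (StrongDual ℝ X)) = D) ∧ IsNorming D ∧
  (∀ f ∈ D, (Φ f).Countable) ∧
  ∀ A ⊆ D, (∃ V : Submodule ℝ (StrongDual ℝ X), (V : Set (StrongDual ℝ X)) = closure A) →
    {f | ∀ a ∈ A, ∀ x ∈ Φ a, f x = 0} ∩ weakStarClosure (closure A) = {0}

namespace Skeleton

variable (S : Skeleton X Γ)

lemma mem_induced {f : StrongDual ℝ X} : f ∈ S.induced ↔ ∃ s, f.comp (S.P s) = f := by
  unfold induced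
  rw [mem_iUnion]
  constructor
  · rintro ⟨s, g, rfl⟩
    exact ⟨s, by rw [ContinuousLinearMap.comp_assoc, S.proj]⟩
  · rintro ⟨s, h⟩
    exact ⟨s, f, h⟩

lemma mem_range_iff {s : Γ} {x : X} : x ∈ Set.range (S.P s) ↔ S.P s x = x := by
  constructor
  · rintro ⟨y, rfl⟩
    exact DFunLike.congr_fun (S.proj s) y
  · intro h
    exact ⟨x, h⟩

lemma exists_fix (x : X) : ∃ s, S.P s x = x := by
  have h : x ∈ ⋃ s, Set.range (S.P s) := by rw [S.cover]; trivial
  obtain ⟨s, hs⟩ := mem_iUnion.1 h
  exact ⟨s, S.mem_range_iff.1 hs⟩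

lemma fix_mono {s t : Γ} (h : s ≤ t) {x : X} (hx : S.P s x = x) : S.P t x = x := by
  have h1 := DFunLike.congr_fun (S.comp s t h).2 x
  change S.P t (S.P s x) = S.P s x at h1
  rw [hx] at h1
  exact h1

lemma dfix_mono {s t : Γ} (h : s ≤ t) {f : StrongDual ℝ X} (hf : f.comp (S.P s) = f) :
    f.comp (S.P t) = f := by
  rw [← hf, ContinuousLinearMap.comp_assoc, (S.comp s t h).1]

/-- the induced subspace -/
def sub : Submodule ℝ (StrongDual ℝ X) where
  carrier := S.induced
  zero_mem' := by
    obtain ⟨s, -⟩ := S.exists_fix 0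
    rw [mem_induced]
    exact ⟨s, ContinuousLinearMap.zero_comp _⟩
  add_mem' := by
    intro f g hf hg
    rw [mem_induced] at hf hg ⊢
    obtain ⟨s, hs⟩ := hf
    obtain ⟨t, ht⟩ := hg
    obtain ⟨u, hsu, htu⟩ := S.directed s t
    exact ⟨u, by rw [ContinuousLinearMap.add_comp, S.dfix_mono hsu hs, S.dfix_mono htu ht]⟩
  smul_mem' := by
    intro c f hf
    rw [mem_induced] at hf ⊢
    obtain ⟨s, hs⟩ := hf
    exact ⟨s, by rw [ContinuousLinearMap.smul_comp, hs]⟩

lemma mem_sub {f : StrongDual ℝ X} : f ∈ S.sub ↔ f ∈ S.induced := Iff.rfl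

/-- the induced subspace is norm closed -/
lemma isClosed_induced : IsClosed S.induced := by
  apply isClosed_of_closure_subset
  intro f hf
  obtain ⟨g, hg, hgf⟩ := mem_closure_iff_seq_limit.1 hf
  choose s hs using fun n => S.mem_induced.1 (hg n)
  -- an increasing sequence
  choose up hup1 hup2 using S.directed
  let t : ℕ → Γ := fun n => Nat.rec (s 0) (fun n u => up u (s (n + 1))) n
  have ht : ∀ n, t n ≤ t (n + 1) := fun n => hup1 _ _
  have hst : ∀ n, s n ≤ t n := by
    intro n
    cases n with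
    | zero => exact le_rfl
    | succ n => exact hup2 _ _
  obtain ⟨u, hu, -⟩ := S.sup t (monotone_nat_of_le_succ ht)
  rw [mem_induced]
  refine ⟨u, ?_⟩
  have h1 : ∀ n, (g n).comp (S.P u) = g n := fun n =>
    S.dfix_mono ((hst n).trans (hu.1 ⟨n, rfl⟩)) (hs n)
  have h2 : Tendsto (fun n => (g n).comp (S.P u)) atTop (𝓝 (f.comp (S.P u))) :=
    ((ContinuousLinearMap.compL ℝ X X ℝ).flip (S.P u)).continuous.continuousAt.tendsto.comp hgf
  simp_rw [h1] at h2
  exact tendsto_nhds_unique h2 hgf

end Skeleton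

end

section enlarge

variable {X : Type u} [NormedAddCommGroup X] [NormedSpace ℝ X] {Γ : Type u} [PartialOrder Γ]

/-- the old indices and the new ones -/
inductive Idx (S : Skeleton X Γ) (R : Set (X × StrongDual ℝ X)) : Type u
  | old (s : Γ) : Idx S R
  | new (r : R) : Idx S R

variable {S : Skeleton X Γ} {R : Set (X × StrongDual ℝ X)}

/-- the order on the indices -/
def Idx.le : Idx S R → Idx S R → Prop
  | .old s, .old t => s ≤ t
  | .new r, .old t => S.P t r.1.1 = r.1.1 ∧ r.1.2.comp (S.P t) = r.1.2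
  | .new r, .new r' => r = r'
  | .old _, .new _ => False

instance : PartialOrder (Idx S R) where
  le := Idx.le
  le_refl a := by
    cases a with
    | old s => exact le_refl s
    | new r => exact rfl
  le_trans a b c h1 h2 := by
    cases a with
    | old s =>
      cases b with
      | old t =>
        cases c with
        | old u => exact le_trans (α := Γ) h1 h2
        | new r => exact h2
      | new r => exact h1.elim
    | new r =>
      cases b with
      | old t =>
        cases c with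
        | old u => exact ⟨S.fix_mono h2 h1.1, S.dfix_mono h2 h1.2⟩
        | new r => exact h2.elim
      | new r' =>
        have h3 : r = r' := h1
        subst h3
        exact h2
  le_antisymm a b h1 h2 := by
    cases a with
    | old s =>
      cases b with
      | old t => exact congrArg _ (le_antisymm (α := Γ) h1 h2)
      | new r => exact h1.elim
    | new r =>
      cases b with
      | old t => exact h2.elim
      | new r' => exact congrArg _ h1

/-- the projections -/
noncomputable def Idx.P : Idx S R → X →L[ℝ] X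
  | .old s => S.P s
  | .new r => r.1.2.smulRight r.1.1

lemma new_apply (r : R) (y : X) : (Idx.new r : Idx S R).P y = r.1.2 y • r.1.1 := rfl

lemma P_proj (hR : ∀ r ∈ R, r.2 ∈ S.induced ∧ r.2 r.1 = 1) (a : Idx S R) :
    a.P.comp a.P = a.P := by
  cases a with
  | old s => exact S.proj s
  | new r =>
    ext y
    change r.1.2 (r.1.2 y • r.1.1) • r.1.1 = r.1.2 y • r.1.1
    rw [map_smul, (hR _ r.2).2, smul_eq_mul, mul_one]

lemma le_old (hR : ∀ r ∈ R, r.2 ∈ S.induced ∧ r.2 r.1 = 1) (a : Idx S R) :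
    ∃ s : Γ, a ≤ Idx.old s := by
  cases a with
  | old s => exact ⟨s, le_rfl⟩
  | new r =>
    obtain ⟨s, hs⟩ := S.exists_fix r.1.1
    obtain ⟨t, ht⟩ := S.mem_induced.1 (hR _ r.2).1
    obtain ⟨u, hsu, htu⟩ := S.directed s t
    exact ⟨u, S.fix_mono hsu hs, S.dfix_mono htu ht⟩

lemma P_comp (hR : ∀ r ∈ R, r.2 ∈ S.induced ∧ r.2 r.1 = 1) (a b : Idx S R) (h : a ≤ b) :
    a.P.comp b.P = a.P ∧ b.P.comp a.P = a.P := by
  cases a with
  | old s =>
    cases b with
    | old t => exact S.comp s t h
    | new r => exact h.elim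
  | new r =>
    cases b with
    | old t =>
      constructor
      · ext y
        change r.1.2 (S.P t y) • r.1.1 = r.1.2 y • r.1.1
        have := DFunLike.congr_fun h.2 y
        change r.1.2 (S.P t y) = r.1.2 y at this
        rw [this]
      · ext y
        change S.P t (r.1.2 y • r.1.1) = r.1.2 y • r.1.1
        rw [map_smul, h.1]
    | new r' =>
      have h3 : r = r' := h
      subst h3
      exact ⟨P_proj hR _, P_proj hR _⟩

lemma range_mono (hR : ∀ r ∈ R, r.2 ∈ S.induced ∧ r.2 r.1 = 1) {a b : Idx S R} (h : a ≤ b) :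
    Set.range a.P ⊆ Set.range b.P := by
  rintro _ ⟨y, rfl⟩
  exact ⟨a.P y, DFunLike.congr_fun (P_comp hR a b h).2 y⟩

lemma range_closed (hR : ∀ r ∈ R, r.2 ∈ S.induced ∧ r.2 r.1 = 1) (a : Idx S R) :
    IsClosed (Set.range a.P) := by
  have h1 : Set.range a.P = {y | a.P y = y} := by
    ext y
    constructor
    · rintro ⟨z, rfl⟩
      exact DFunLike.congr_fun (P_proj hR a) z
    · intro h
      exact ⟨y, h⟩
  rw [h1]
  exact isClosed_eq a.P.continuous continuous_id

/-- the enlarged skeleton -/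
noncomputable def enlarge (S : Skeleton X Γ) (R : Set (X × StrongDual ℝ X))
    (hR : ∀ r ∈ R, r.2 ∈ S.induced ∧ r.2 r.1 = 1) : Skeleton X (Idx S R) where
  P := Idx.P
  proj := P_proj hR
  directed a b := by
    obtain ⟨s, hs⟩ := le_old hR a
    obtain ⟨t, ht⟩ := le_old hR b
    obtain ⟨u, hsu, htu⟩ := S.directed s t
    exact ⟨.old u, le_trans hs (show (Idx.old s : Idx S R) ≤ .old u from hsu),
      le_trans ht (show (Idx.old t : Idx S R) ≤ .old u from htu)⟩
  separable a := by
    cases a with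
    | old s => exact S.separable s
    | new r =>
      refine (TopologicalSpace.isSeparable_range (α := ℝ) (f := fun t : ℝ => t • r.1.1)
        (by fun_prop)).mono ?_
      rintro _ ⟨y, rfl⟩
      exact ⟨r.1.2 y, rfl⟩
  comp := P_comp hR
  sup g hg := by
    by_cases h : ∃ n s, g n = .old s
    · obtain ⟨n0, s0, h0⟩ := h
      have h1 : ∀ n, ∃ t, g (n0 + n) = .old t := by
        intro n
        have h2 : g n0 ≤ g (n0 + n) := hg (Nat.le_add_right _ _)
        rw [h0] at h2
        cases h3 : g (n0 + n) with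
        | old t => exact ⟨t, rfl⟩
        | new r =>
          rw [h3] at h2
          exact h2.elim
      choose t ht using h1
      have htm : Monotone t := by
        intro a b hab
        have h2 : g (n0 + a) ≤ g (n0 + b) := hg (Nat.add_le_add_left hab _)
        rw [ht, ht] at h2
        exact h2
      obtain ⟨s, hs, hsr⟩ := S.sup t htm
      refine ⟨.old s, ⟨?_, ?_⟩, ?_⟩
      · rintro _ ⟨m, rfl⟩
        have h2 : g m ≤ g (n0 + m) := hg (Nat.le_add_left _ _)
        refine h2.trans ?_
        rw [ht]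
        exact hs.1 ⟨m, rfl⟩
      · intro b hb
        cases b with
        | old b' =>
          have h2 : s ≤ b' := by
            apply hs.2
            rintro _ ⟨n, rfl⟩
            have h3 : g (n0 + n) ≤ .old b' := hb ⟨n0 + n, rfl⟩
            rw [ht] at h3
            exact h3
          exact h2
        | new r =>
          have h3 : g n0 ≤ .new r := hb ⟨n0, rfl⟩
          rw [h0] at h3
          exact h3.elim
      · change Set.range (S.P s) = _
        rw [hsr]
        congr 1
        apply Set.Subset.antisymm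
        · intro y hy
          obtain ⟨n, hn⟩ := mem_iUnion.1 hy
          refine mem_iUnion.2 ⟨n0 + n, ?_⟩
          rw [ht]
          exact hn
        · intro y hy
          obtain ⟨n, hn⟩ := mem_iUnion.1 hy
          refine mem_iUnion.2 ⟨n, ?_⟩
          have h2 : g n ≤ g (n0 + n) := hg (Nat.le_add_left _ _)
          have h3 := range_mono hR h2 hn
          rw [ht] at h3
          exact h3
    · push Not at h
      have h1 : ∀ n, ∃ r, g n = .new r := by
        intro n
        cases h3 : g n with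
        | old t => exact absurd h3 (h n t)
        | new r => exact ⟨r, rfl⟩
      have h2 : ∀ n, g n = g 0 := by
        intro n
        obtain ⟨r, hr⟩ := h1 n
        obtain ⟨r0, hr0⟩ := h1 0
        have h3 : g 0 ≤ g n := hg (Nat.zero_le n)
        rw [hr, hr0] at h3
        have h4 : r0 = r := h3
        rw [hr, hr0, h4]
      refine ⟨g 0, ⟨?_, ?_⟩, ?_⟩
      · rintro _ ⟨m, rfl⟩
        exact le_of_eq (h2 m)
      · intro b hb
        exact hb ⟨0, rfl⟩
      · have h3 : (⋃ n, Set.range ((g n).P)) = Set.range ((g 0).P) := by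
          apply Set.Subset.antisymm
          · intro y hy
            obtain ⟨n, hn⟩ := mem_iUnion.1 hy
            rw [h2] at hn
            exact hn
          · exact fun y hy => mem_iUnion.2 ⟨0, hy⟩
        rw [h3, (range_closed hR (g 0)).closure_eq]
  cover := by
    rw [Set.eq_univ_iff_forall]
    intro x
    obtain ⟨s, hs⟩ := S.exists_fix x
    exact mem_iUnion.2 ⟨.old s, x, hs⟩

lemma enlarge_induced (hR : ∀ r ∈ R, r.2 ∈ S.induced ∧ r.2 r.1 = 1) :
    (enlarge S R hR).induced = S.induced := by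
  ext f
  rw [Skeleton.mem_induced, Skeleton.mem_induced]
  constructor
  · rintro ⟨a, ha⟩
    cases a with
    | old s => exact ⟨s, ha⟩
    | new r =>
      have h1 : f = f r.1.1 • r.1.2 := by
        ext y
        have h2 := DFunLike.congr_fun ha y
        change f (r.1.2 y • r.1.1) = f y at h2
        rw [map_smul, smul_eq_mul, mul_comm] at h2
        exact h2.symm
      have h2 : f ∈ S.sub := by
        rw [h1]
        exact S.sub.smul_mem _ (hR _ r.2).1
      exact S.mem_induced.1 h2
  · rintro ⟨s, hs⟩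
    exact ⟨.old s, hs⟩

/-- **The recipe fails for the enlarged skeleton.** -/
theorem enlarge_fails (hR : ∀ r ∈ R, r.2 ∈ S.induced ∧ r.2 r.1 = 1) (A : Set (StrongDual ℝ X))
    (hAD : A ⊆ S.induced)
    (hA : ∃ V : Submodule ℝ (StrongDual ℝ X), (V : Set (StrongDual ℝ X)) = closure A)
    (f : StrongDual ℝ X) (hf0 : f ≠ 0) (hf : f ∈ weakStarClosure (closure A))
    (hAR : ∀ a ∈ A, a ≠ 0 → ∃ x, (x, a) ∈ R ∧ f x = 0) (h0 : ∃ r ∈ R, f r.1 = 0) :
    ∃ Φ : StrongDual ℝ X → Set X, (enlarge S R hR).Recipe Φ ∧ ¬ IsGenerator S.induced Φ := by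
  classical
  have hs : ∀ g : StrongDual ℝ X, ∃ a : Idx S R, g ∈ S.induced → (g.comp a.P = g ∧
      (g ∈ A → ∀ y ∈ Set.range a.P, f y = 0)) := by
    intro g
    by_cases hg : g ∈ S.induced
    · by_cases hgA : g ∈ A
      · have key : ∀ r : R, f r.1.1 = 0 → ∀ y ∈ Set.range (Idx.new r : Idx S R).P, f y = 0 := by
          rintro r hr _ ⟨y, rfl⟩
          rw [new_apply, map_smul, hr, smul_zero]
        by_cases hg0 : g = 0
        · obtain ⟨r, hr, hfr⟩ := h0
          refine ⟨.new ⟨r, hr⟩, fun _ => ⟨?_, fun _ => key ⟨r, hr⟩ hfr⟩⟩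
          rw [hg0, ContinuousLinearMap.zero_comp]
        · obtain ⟨x, hx, hfx⟩ := hAR g hgA hg0
          refine ⟨.new ⟨(x, g), hx⟩, fun _ => ⟨?_, fun _ => key ⟨(x, g), hx⟩ hfx⟩⟩
          ext y
          change g (g y • x) = g y
          rw [map_smul, (hR _ hx).2, smul_eq_mul, mul_one]
      · obtain ⟨s, hs⟩ := S.mem_induced.1 hg
        exact ⟨.old s, fun _ => ⟨hs, fun h => absurd h hgA⟩⟩
    · obtain ⟨s, -⟩ := S.exists_fix 0
      exact ⟨.old s, fun h => absurd h hg⟩
  choose s hs using hs
  have hΦ : ∀ g : StrongDual ℝ X, ∃ T ⊆ Set.range (s g).P, T.Countable ∧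
      Set.range (s g).P ⊆ closure T := fun g =>
    ((enlarge S R hR).separable (s g)).exists_countable_dense_subset
  choose Φ hΦ1 hΦ2 hΦ3 using hΦ
  refine ⟨Φ, ⟨s, fun g hg => ?_⟩, ?_⟩
  · rw [enlarge_induced hR] at hg
    exact ⟨(hs g hg).1, hΦ2 g, hΦ1 g, hΦ3 g⟩
  · rintro ⟨-, -, -, h⟩
    have h1 := h A hAD hA
    have h2 : f ∈ {f : StrongDual ℝ X | ∀ a ∈ A, ∀ x ∈ Φ a, f x = 0} ∩
        weakStarClosure (closure A) := by
      refine ⟨fun a ha x hx => ?_, hf⟩
      exact (hs a (hAD ha)).2 ha x (hΦ1 a hx)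
    rw [h1] at h2
    exact hf0 h2

end enlarge

end Pool.Agent.Q33.PSk
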