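import Pool.Agent.Q33.PSk.Main

/-!
# The space of continuous functions on the unit interval is not reflexive
-/

set_option autoImplicit false

namespace Pool.Agent.Q33.PSk

open Set Filter Topology

/-- the powers -/
def pw (n : ℕ) : C(unitInterval, ℝ) := ⟨fun t => (t : ℝ) ^ n, by fun_prop⟩

lemma norm_pw (n : ℕ) : ‖pw n‖ ≤ 1 := by
  rw [ContinuousMap.norm_le _ zero_le_one]
  intro t
  change ‖(t : ℝ) ^ n‖ ≤ 1
  rw [norm_pow, Real.norm_of_nonneg t.2.1]
  exact pow_le_one₀ t.2.1 t.2.2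

/-- the functionals which tend to zero on the powers -/
def VV : Submodule ℝ (StrongDual ℝ C(unitInterval, ℝ)) where
  carrier := {g | Tendsto (fun n => g (pw n)) atTop (𝓝 0)}
  zero_mem' := by
    change Tendsto (fun n => (0 : StrongDual ℝ C(unitInterval, ℝ)) (pw n)) atTop (𝓝 0)
    exact tendsto_const_nhds
  add_mem' := by
    intro a b ha hb
    have h1 := Tendsto.add ha hb
    rw [add_zero] at h1
    exact h1
  smul_mem' := by
    intro c a ha
    have h1 := Tendsto.const_mul c ha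
    rw [mul_zero] at h1
    exact h1

lemma VV_closed : IsClosed (VV : Set (StrongDual ℝ C(unitInterval, ℝ))) := by
  apply isClosed_of_closure_subset
  intro g hg
  change Tendsto (fun n => g (pw n)) atTop (𝓝 0)
  rw [Metric.tendsto_atTop]
  intro ε hε
  obtain ⟨g', hg', hd⟩ := (Metric.mem_closure_iff
    (α := StrongDual ℝ C(unitInterval, ℝ))).1 hg (ε / 2) (by positivity)
  have hg'' : Tendsto (fun n => g' (pw n)) atTop (𝓝 0) := hg'
  obtain ⟨N, hN⟩ := Metric.tendsto_atTop.1 hg'' (ε / 2) (by positivity)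
  refine ⟨N, fun n hn => ?_⟩
  have h1 := hN n hn
  rw [dist_zero_right] at h1 ⊢
  have h2 : ‖(g - g') (pw n)‖ ≤ ‖g - g'‖ * 1 :=
    ((g - g').le_opNorm (pw n)).trans (mul_le_mul_of_nonneg_left (norm_pw n) (norm_nonneg _))
  have hd' : ‖g - g'‖ < ε / 2 := (dist_eq_norm g g').symm.trans_lt hd
  have h3 : g (pw n) = (g - g') (pw n) + g' (pw n) := by
    change g (pw n) = (g (pw n) - g' (pw n)) + g' (pw n)
    ring
  rw [h3]
  calc ‖(g - g') (pw n) + g' (pw n)‖ ≤ ‖(g - g') (pw n)‖ + ‖g' (pw n)‖ := norm_add_le _ _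
    _ < ε := by linarith

lemma not_reflexive :
    ¬ Function.Surjective (NormedSpace.inclusionInDoubleDual ℝ C(unitInterval, ℝ)) := by
  intro hsurj
  let δ : unitInterval → StrongDual ℝ C(unitInterval, ℝ) := fun t => ContinuousMap.evalCLM ℝ t
  have hδ : ∀ t f, δ t f = f t := fun t f => rfl
  have h1 : δ 1 ∉ VV := by
    intro h
    have h2 : Tendsto (fun n => δ 1 (pw n)) atTop (𝓝 0) := h
    have h3 : (fun n => δ 1 (pw n)) = fun _ => (1 : ℝ) := by
      funext n
      change ((1 : unitInterval) : ℝ) ^ n = 1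
      simp
    rw [h3] at h2
    exact one_ne_zero (tendsto_nhds_unique tendsto_const_nhds h2)
  have h2 : ∀ t : unitInterval, (t : ℝ) < 1 → δ t ∈ VV := by
    intro t ht
    change Tendsto (fun n => (t : ℝ) ^ n) atTop (𝓝 0)
    exact tendsto_pow_atTop_nhds_zero_of_lt_one t.2.1 ht
  obtain ⟨ξ, hξ1, hξ2⟩ := exists_sep (X := StrongDual ℝ C(unitInterval, ℝ)) VV VV_closed
    (f := δ 1) h1
  obtain ⟨x, rfl⟩ := hsurj ξ
  have h3 : ∀ t : unitInterval, (t : ℝ) < 1 → x t = 0 := fun t ht => hξ2 _ (h2 t ht)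
  have h4 : x 1 ≠ 0 := hξ1
  apply h4
  -- continuity at one
  have h5 : Tendsto (fun n : ℕ => (⟨1 - 1 / ((n : ℝ) + 1), by
      have : 0 < (n : ℝ) + 1 := by positivity
      constructor
      · rw [sub_nonneg, div_le_one this]
        linarith [(Nat.cast_nonneg n : (0 : ℝ) ≤ n)]
      · have : 0 ≤ 1 / ((n : ℝ) + 1) := by positivity
        linarith⟩ : unitInterval)) atTop (𝓝 1) := by
    rw [tendsto_subtype_rng]
    have h6 := (tendsto_one_div_add_atTop_nhds_zero_nat (𝕜 := ℝ)).const_sub 1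
    rw [sub_zero] at h6
    exact h6
  have h6 := (x.continuous.tendsto 1).comp h5
  refine tendsto_nhds_unique h6 (tendsto_const_nhds.congr fun n => ?_)
  symm
  apply h3
  have : 0 < 1 / ((n : ℝ) + 1) := by positivity
  change 1 - 1 / ((n : ℝ) + 1) < 1
  linarith

/-- the skeleton of a separable space that consists of the identity -/
noncomputable def trivialSkeleton (X : Type) [NormedAddCommGroup X] [NormedSpace ℝ X]
    [TopologicalSpace.SeparableSpace X] : Skeleton X Unit where
  P := fun _ => ContinuousLinearMap.id ℝ X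
  proj := fun _ => rfl
  directed := fun _ _ => ⟨(), le_rfl, le_rfl⟩
  separable := fun _ => TopologicalSpace.IsSeparable.of_separableSpace _
  comp := fun _ _ _ => ⟨rfl, rfl⟩
  sup := by
    intro g _
    refine ⟨(), ⟨fun _ _ => le_rfl, fun _ _ => le_rfl⟩, ?_⟩
    have h1 : Set.range (ContinuousLinearMap.id ℝ X) = Set.univ := by
      ext x
      simp
    rw [h1]
    have h2 : (⋃ _ : ℕ, (Set.univ : Set X)) = Set.univ := by
      rw [Set.iUnion_const]
    rw [h2, closure_univ]
  cover := by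
    ext x
    simp

/-- the recipe fails for continuous functions on the interval -/
theorem example_fails : ∃ (Γ : Type) (_ : PartialOrder Γ) (S : Skeleton C(unitInterval, ℝ) Γ)
    (Φ : StrongDual ℝ C(unitInterval, ℝ) → Set C(unitInterval, ℝ)),
    S.Bounded ∧ S.Recipe Φ ∧ ¬ IsGenerator S.induced Φ := by
  obtain ⟨Γ', o, S', Φ, h1, h2, h3, h4⟩ :=
    fails_bounded (trivialSkeleton C(unitInterval, ℝ)) ⟨1, fun _ =>
      ContinuousLinearMap.norm_id_le⟩ not_reflexive
  exact ⟨Γ', o, S', Φ, h1, h3, by rw [h2]; exact h4⟩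

end Pool.Agent.Q33.PSk
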