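import Pool.Agent.Q33.PSk.Basic

/-!
# The recipe and reflexivity
-/

set_option autoImplicit false
set_option linter.unusedSectionVars false

namespace Pool.Agent.Q33.PSk

open Set Filter Topology

universe u

variable {X : Type u} [NormedAddCommGroup X] [NormedSpace ℝ X] {Γ : Type u} [PartialOrder Γ]

lemma self_mem_wsc {S : Set (StrongDual ℝ X)} {f : StrongDual ℝ X} (hf : f ∈ S) :
    f ∈ weakStarClosure S := by
  have h1 : (StrongDual.toWeakDual f : WeakDual ℝ X) ∈ StrongDual.toWeakDual '' S :=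
    Set.mem_image_of_mem _ hf
  exact subset_closure (X := WeakDual ℝ X) h1

/-- functionals with the same kernel -/
lemma smul_of_ker {f g : StrongDual ℝ X} (h : ∀ x, f x = 0 → g x = 0) : ∃ c : ℝ, g = c • f := by
  by_cases hf : f = 0
  · refine ⟨0, ?_⟩
    ext x
    rw [h x (by rw [hf]; rfl)]
    simp
  · obtain ⟨x0, hx0⟩ : ∃ x, f x ≠ 0 := by
      by_contra hcon
      push Not at hcon
      exact hf (ContinuousLinearMap.ext hcon)
    refine ⟨g x0 / f x0, ?_⟩
    ext x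
    have h1 := h (x - (f x / f x0) • x0) (by
      rw [map_sub, map_smul, smul_eq_mul, div_mul_cancel₀ _ hx0, sub_self])
    rw [map_sub, map_smul, smul_eq_mul, sub_eq_zero] at h1
    rw [h1]
    change f x / f x0 * g x0 = g x0 / f x0 * f x
    ring

lemma exists_dual {x : X} (hx : x ≠ 0) : ∃ g : StrongDual ℝ X, ‖g‖ = 1 ∧ g x = ‖x‖ :=
  exists_dual_vector ℝ x (norm_ne_zero_iff.2 hx)

/-- closed subspaces are intersections of kernels -/
lemma exists_sep (V : Submodule ℝ X) (hV : IsClosed (V : Set X)) {f : X} (hf : f ∉ V) :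
    ∃ ξ : StrongDual ℝ X, ξ f ≠ 0 ∧ ∀ v ∈ V, ξ v = 0 := by
  obtain ⟨ξ, u, h1, h2⟩ := geometric_hahn_banach_point_closed V.convex hV hf
  have hu : u < 0 := by
    have := h2 0 V.zero_mem
    rwa [map_zero] at this
  refine ⟨ξ, by linarith, fun v hv => ?_⟩
  by_contra h0
  have h3 := h2 ((u / ξ v) • v) (V.smul_mem _ hv)
  rw [map_smul, smul_eq_mul, div_mul_cancel₀ _ h0] at h3
  exact lt_irrefl _ h3

/-- subspaces that separate the points are weak-star dense -/
lemma wsc_of_sep (V : Submodule ℝ (StrongDual ℝ X)) (hV : ∀ x, x ≠ 0 → ∃ v ∈ V, v x ≠ 0)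
    (f : StrongDual ℝ X) : f ∈ weakStarClosure (V : Set (StrongDual ℝ X)) := by
  classical
  -- agreement on finite sets
  have key : ∀ F : Finset X, ∃ v ∈ V, ∀ x ∈ F, v x = f x := by
    intro F
    let W : Submodule ℝ X := Submodule.span ℝ (F : Set X)
    have hfin : FiniteDimensional ℝ W := FiniteDimensional.span_finset ℝ F
    let ρ : StrongDual ℝ X →ₗ[ℝ] Module.Dual ℝ W :=
      { toFun := fun v => (v : X →ₗ[ℝ] ℝ).comp W.subtype
        map_add' := fun _ _ => rfl
        map_smul' := fun _ _ => rfl }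
    have hρ : ∀ v (w : W), ρ v w = v w := fun v w => rfl
    have h1 : V.map ρ = ⊤ := by
      by_contra hne
      have h2 : V.map ρ < ⊤ := lt_top_iff_ne_top.2 hne
      obtain ⟨ξ, hξ0, hξ⟩ := Submodule.exists_le_ker_of_lt_top _ h2
      obtain ⟨w, hw⟩ := (Module.evalEquiv ℝ W).surjective ξ
      have hw0 : w ≠ 0 := by
        rintro rfl
        rw [map_zero] at hw
        exact hξ0 hw.symm
      obtain ⟨v, hv, hvw⟩ := hV (w : X) (fun h => hw0 (Subtype.ext h))
      apply hvw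
      have h3 := hξ ⟨v, hv, rfl⟩
      rw [LinearMap.mem_ker, ← hw] at h3
      exact h3
    have h2 : ρ f ∈ V.map ρ := by rw [h1]; trivial
    obtain ⟨v, hv, hvf⟩ := h2
    refine ⟨v, hv, fun x hx => ?_⟩
    exact DFunLike.congr_fun hvf (⟨x, Submodule.subset_span hx⟩ : W)
  choose v hv hvf using key
  have hlim : Tendsto (fun F : Finset X => (StrongDual.toWeakDual (v F) : WeakDual ℝ X)) atTop
      (𝓝 (StrongDual.toWeakDual f : WeakDual ℝ X)) := by
    rw [tendsto_iff_forall_eval_tendsto_topDualPairing]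
    intro x
    refine tendsto_const_nhds.congr' ?_
    filter_upwards [eventually_ge_atTop ({x} : Finset X)] with F hF
    exact (hvf F x (Finset.singleton_subset_iff.1 hF)).symm
  exact mem_closure_of_tendsto (X := WeakDual ℝ X) hlim
    (Eventually.of_forall fun F => Set.mem_image_of_mem _ (hv F))

/-- evaluation on the weak-star closure -/
lemma eval_of_wsc {S : Set (StrongDual ℝ X)} {x : X} (hS : ∀ g ∈ S, g x = 0)
    {f : StrongDual ℝ X} (hf : f ∈ weakStarClosure S) : f x = 0 := by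
  have h1 : IsClosed {g : WeakDual ℝ X | g x = 0} :=
    isClosed_eq (WeakDual.eval_continuous x) continuous_const
  have h2 : (StrongDual.toWeakDual '' S : Set (WeakDual ℝ X)) ⊆ {g : WeakDual ℝ X | g x = 0} := by
    rintro _ ⟨g, hg, rfl⟩
    exact hS g hg
  exact closure_minimal h2 h1 hf

namespace Skeleton

variable (S : Skeleton X Γ)

/-- the induced subspace separates the points -/
lemma sep {x : X} (hx : x ≠ 0) : ∃ v ∈ S.induced, v x ≠ 0 := by
  obtain ⟨s, hs⟩ := S.exists_fix x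
  obtain ⟨g, -, hg⟩ := exists_dual hx
  refine ⟨g.comp (S.P s), S.mem_induced.2 ⟨s, by
    rw [ContinuousLinearMap.comp_assoc, S.proj]⟩, ?_⟩
  change g (S.P s x) ≠ 0
  rw [hs, hg]
  simpa using hx

/-- the induced subspace is norming -/
lemma norming (hS : S.Bounded) : IsNorming S.induced := by
  obtain ⟨C, hC⟩ := hS
  set C' := max C 1 with hC'
  have hpos : 0 < C' := lt_of_lt_of_le one_pos (le_max_right _ _)
  refine ⟨C'⁻¹, inv_pos.2 hpos, fun x => ?_⟩
  have hbdd : BddAbove {t : ℝ | ∃ f ∈ S.induced, ‖f‖ ≤ 1 ∧ t = |f x|} := by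
    refine ⟨‖x‖, ?_⟩
    rintro _ ⟨f, -, hf, rfl⟩
    calc |f x| ≤ ‖f‖ * ‖x‖ := f.le_opNorm x
      _ ≤ 1 * ‖x‖ := mul_le_mul_of_nonneg_right hf (norm_nonneg _)
      _ = ‖x‖ := one_mul _
  by_cases hx : x = 0
  · refine le_csSup hbdd ⟨0, S.sub.zero_mem, by simp, ?_⟩
    rw [hx]
    simp
  · obtain ⟨s, hs⟩ := S.exists_fix x
    obtain ⟨g, hg1, hg⟩ := exists_dual hx
    refine le_csSup hbdd ⟨C'⁻¹ • g.comp (S.P s), ?_, ?_, ?_⟩
    · exact S.sub.smul_mem _ (S.mem_induced.2 ⟨s, by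
        rw [ContinuousLinearMap.comp_assoc, S.proj]⟩)
    · rw [norm_smul, norm_inv, Real.norm_of_nonneg hpos.le]
      have h1 : ‖g.comp (S.P s)‖ ≤ C' := by
        refine (ContinuousLinearMap.opNorm_comp_le _ _).trans ?_
        rw [hg1, one_mul]
        exact (hC s).trans (le_max_left _ _)
      rw [inv_mul_le_iff₀ hpos, mul_one]
      exact h1
    · change C'⁻¹ * ‖x‖ = |C'⁻¹ * g (S.P s x)|
      rw [hs, hg, abs_mul, abs_of_pos (inv_pos.2 hpos)]
      simp

/-- **The recipe works in reflexive spaces, if the projections are uniformly bounded.** -/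
theorem works (hS : S.Bounded)
    (hX : Function.Surjective (NormedSpace.inclusionInDoubleDual ℝ X))
    (Φ : StrongDual ℝ X → Set X) (hΦ : S.Recipe Φ) : IsGenerator S.induced Φ := by
  obtain ⟨s, hs⟩ := hΦ
  refine ⟨⟨S.sub, rfl⟩, S.norming hS, fun f hf => (hs f hf).2.1, ?_⟩
  rintro A hAD ⟨V, hV⟩
  apply Set.Subset.antisymm
  · rintro f ⟨hfA, hfc⟩
    rw [Set.mem_singleton_iff]
    -- `f` is in the norm closure
    have hfV : f ∈ closure A := by
      by_contra hcon
      have hVc : IsClosed (V : Set (StrongDual ℝ X)) := by rw [hV]; exact isClosed_closure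
      obtain ⟨ξ, hξf, hξV⟩ := exists_sep V hVc (f := f) (by
        intro h
        apply hcon
        rw [← hV]
        exact h)
      obtain ⟨x, rfl⟩ := hX ξ
      apply hξf
      rw [NormedSpace.dual_def]
      refine eval_of_wsc (S := closure A) (fun g hg => ?_) hfc
      rw [← hV] at hg
      exact hξV g hg
    obtain ⟨C, hC⟩ := hS
    by_contra hf0
    set C' := max C 0 with hC'
    have hC'0 : 0 ≤ C' := le_max_right _ _
    have hpos : 0 < ‖f‖ := norm_pos_iff.2 hf0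
    obtain ⟨a, ha, had⟩ := Metric.mem_closure_iff.1 hfV (‖f‖ / (1 + C')) (by positivity)
    have hfP : f.comp (S.P (s a)) = 0 := by
      ext y
      have h1 : S.P (s a) y ∈ closure (Φ a) := (hs a (hAD ha)).2.2.2 ⟨y, rfl⟩
      have h2 : IsClosed {z : X | f z = 0} := isClosed_eq f.continuous continuous_const
      exact closure_minimal (fun z hz => hfA a ha z hz) h2 h1
    have h1 : a = (a - f).comp (S.P (s a)) := by
      rw [ContinuousLinearMap.sub_comp, hfP, sub_zero, (hs a (hAD ha)).1]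
    have h2 : ‖a‖ ≤ ‖f - a‖ * C' := by
      calc ‖a‖ = ‖(a - f).comp (S.P (s a))‖ := by rw [← h1]
        _ ≤ ‖a - f‖ * ‖S.P (s a)‖ := ContinuousLinearMap.opNorm_comp_le _ _
        _ ≤ ‖a - f‖ * C' :=
          mul_le_mul_of_nonneg_left ((hC _).trans (le_max_left _ _)) (norm_nonneg _)
        _ = ‖f - a‖ * C' := by rw [norm_sub_rev]
    rw [dist_eq_norm, lt_div_iff₀ (by positivity)] at had
    have h3 : ‖f‖ ≤ ‖f - a‖ + ‖a‖ := by
      calc ‖f‖ = ‖(f - a) + a‖ := by rw [sub_add_cancel]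
        _ ≤ _ := norm_add_le _ _
    nlinarith
  · rintro _ rfl
    refine ⟨fun a _ x _ => rfl, self_mem_wsc ?_⟩
    rw [← hV]
    exact V.zero_mem

/-- a closed subspace of the induced subspace which is weak-star dense -/
lemma exists_subspace (hX : ¬ Function.Surjective (NormedSpace.inclusionInDoubleDual ℝ X)) :
    ∃ (V : Submodule ℝ (StrongDual ℝ X)) (f : StrongDual ℝ X),
      (V : Set (StrongDual ℝ X)) ⊆ S.induced ∧ IsClosed (V : Set (StrongDual ℝ X)) ∧
      (∀ x, x ≠ 0 → ∃ v ∈ V, v x ≠ 0) ∧ f ∉ V := by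
  by_cases h : S.induced = Set.univ
  · unfold Function.Surjective at hX
    push Not at hX
    obtain ⟨ξ, hξ⟩ := hX
    refine ⟨LinearMap.ker (ξ : StrongDual ℝ X →ₗ[ℝ] ℝ), ?_⟩
    obtain ⟨f, hf⟩ : ∃ f, ξ f ≠ 0 := by
      by_contra hcon
      push Not at hcon
      apply hξ 0
      rw [map_zero]
      ext f
      exact (hcon f).symm
    refine ⟨f, ?_, ?_, ?_, hf⟩
    · rw [h]
      exact Set.subset_univ _
    · exact isClosed_eq ξ.continuous continuous_const
    · intro x hx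
      by_contra hcon
      push Not at hcon
      obtain ⟨c, hc⟩ := smul_of_ker (f := ξ) (g := NormedSpace.inclusionInDoubleDual ℝ X x)
        (fun v hv => hcon v hv)
      have hc0 : c ≠ 0 := by
        rintro rfl
        rw [zero_smul] at hc
        obtain ⟨g, -, hg⟩ := exists_dual hx
        have h1 := DFunLike.congr_fun hc g
        rw [NormedSpace.dual_def, hg] at h1
        exact hx (norm_eq_zero.1 h1)
      apply hξ (c⁻¹ • x)
      rw [map_smul, hc, smul_smul, inv_mul_cancel₀ hc0, one_smul]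
  · obtain ⟨f, hf⟩ := (Set.ne_univ_iff_exists_notMem _).1 h
    exact ⟨S.sub, f, Subset.rfl, S.isClosed_induced, fun x hx => S.sep hx, hf⟩

end Skeleton

/-- vectors in the kernel of `f` on which the elements of `V` are large -/
lemma exists_vectors (V : Submodule ℝ (StrongDual ℝ X)) (hV : IsClosed (V : Set (StrongDual ℝ X)))
    {f : StrongDual ℝ X} (hf : f ∉ V) : ∃ K : ℝ, ∀ v ∈ V, v ≠ 0 →
      ∃ x : X, f x = 0 ∧ v x = 1 ∧ ‖x‖ * ‖v‖ ≤ K := by
  have hf0 : f ≠ 0 := by
    rintro rfl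
    exact hf V.zero_mem
  have hfpos : 0 < ‖f‖ := norm_pos_iff.2 hf0
  obtain ⟨δ, hδ, hδV⟩ : ∃ δ : ℝ, 0 < δ ∧ ∀ v ∈ V, δ ≤ ‖f - v‖ := by
    have h1 : 0 < Metric.infDist f (V : Set (StrongDual ℝ X)) := by
      rw [← hV.notMem_iff_infDist_pos ⟨0, V.zero_mem⟩]
      exact hf
    refine ⟨_, h1, fun v hv => ?_⟩
    rw [← dist_eq_norm]
    exact Metric.infDist_le_dist_of_mem hv
  have hδf : δ ≤ ‖f‖ := by
    have := hδV 0 V.zero_mem
    rwa [sub_zero] at this
  set c := δ / (2 * ‖f‖) with hc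
  have hcpos : 0 < c := by positivity
  have hc2 : c ≤ 1 / 2 := by
    rw [hc, div_le_iff₀ (by positivity)]
    linarith
  have hdist : ∀ v ∈ V, ∀ t : ℝ, c * ‖v‖ ≤ ‖v - t • f‖ := by
    intro v hv t
    by_cases ht : |t| * ‖f‖ ≤ ‖v‖ / 2
    · have h1 : ‖v‖ ≤ ‖v - t • f‖ + ‖t • f‖ := by
        calc ‖v‖ = ‖(v - t • f) + t • f‖ := by rw [sub_add_cancel]
          _ ≤ _ := norm_add_le _ _
      rw [norm_smul, Real.norm_eq_abs] at h1
      have h2 : c * ‖v‖ ≤ 1 / 2 * ‖v‖ := mul_le_mul_of_nonneg_right hc2 (norm_nonneg _)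
      linarith
    · push Not at ht
      have ht0 : t ≠ 0 := by
        rintro rfl
        rw [abs_zero, zero_mul] at ht
        have := norm_nonneg v
        linarith
      have h1 : v - t • f = (-t) • (f - t⁻¹ • v) := by
        ext y
        change v y - t * f y = -t * (f y - t⁻¹ * v y)
        field_simp
        ring
      rw [h1, norm_smul, Real.norm_eq_abs, abs_neg]
      have h2 := hδV (t⁻¹ • v) (V.smul_mem _ hv)
      calc c * ‖v‖ = δ * (‖v‖ / 2) / ‖f‖ := by rw [hc]; field_simp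
        _ ≤ δ * (|t| * ‖f‖) / ‖f‖ := by gcongr
        _ = |t| * δ := by field_simp
        _ ≤ |t| * ‖f - t⁻¹ • v‖ := mul_le_mul_of_nonneg_left h2 (abs_nonneg _)
  refine ⟨2 / c, fun v hv hv0 => ?_⟩
  have hvpos : 0 < ‖v‖ := norm_pos_iff.2 hv0
  let N : Submodule ℝ X := LinearMap.ker (f : X →ₗ[ℝ] ℝ)
  let vN : StrongDual ℝ N := v.comp N.subtypeL
  obtain ⟨g, hg1, hg2⟩ := exists_extension_norm_eq (𝕜 := ℝ) N vN
  obtain ⟨t, ht⟩ := smul_of_ker (f := f) (g := v - g) (by
    intro x hx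
    have h1 := hg1 (⟨x, hx⟩ : N)
    change g x = v x at h1
    rw [sub_apply, h1, sub_self])
  have h2 : g = v - t • f := by rw [← ht]; abel
  have h3 : c * ‖v‖ ≤ ‖vN‖ := by
    rw [← hg2, h2]
    exact hdist v hv t
  have h4 : c / 2 * ‖v‖ < ‖vN‖ := by
    refine lt_of_lt_of_le ?_ h3
    have : 0 < c * ‖v‖ := by positivity
    linarith
  obtain ⟨x, hx1, hx2⟩ := ContinuousLinearMap.exists_lt_apply_of_lt_opNorm vN h4
  have h5 : vN x = v x := rfl
  rw [h5, Real.norm_eq_abs] at hx2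
  have h6 : 0 < |v x| := lt_of_le_of_lt (by positivity) hx2
  have h7 : v x ≠ 0 := abs_pos.1 h6
  refine ⟨(v x)⁻¹ • (x : X), ?_, ?_, ?_⟩
  · rw [map_smul]
    have : f (x : X) = 0 := x.2
    rw [this, smul_zero]
  · rw [map_smul, smul_eq_mul, inv_mul_cancel₀ h7]
  · rw [norm_smul, norm_inv, Real.norm_eq_abs]
    have h8 : ‖(x : X)‖ ≤ 1 := by
      have := hx1.le
      exact this
    calc |v x|⁻¹ * ‖(x : X)‖ * ‖v‖ ≤ |v x|⁻¹ * 1 * ‖v‖ := by gcongr
      _ = ‖v‖ / |v x| := by ring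
      _ ≤ 2 / c := by
        rw [div_le_div_iff₀ h6 hcpos]
        linarith

/-- **The recipe fails in spaces which are not reflexive**, with uniformly bounded projections. -/
theorem fails_bounded (S : Skeleton X Γ) (hS : S.Bounded)
    (hX : ¬ Function.Surjective (NormedSpace.inclusionInDoubleDual ℝ X)) :
    ∃ (Γ' : Type u) (_ : PartialOrder Γ') (S' : Skeleton X Γ') (Φ : StrongDual ℝ X → Set X),
      S'.Bounded ∧ S'.induced = S.induced ∧ S'.Recipe Φ ∧ ¬ IsGenerator S.induced Φ := by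
  obtain ⟨V, f, hVS, hVc, hsep, hf⟩ := S.exists_subspace hX
  obtain ⟨K, hK⟩ := exists_vectors V hVc hf
  have hf0 : f ≠ 0 := by
    rintro rfl
    exact hf V.zero_mem
  let R : Set (X × StrongDual ℝ X) := {r | r.2 ∈ V ∧ r.2 r.1 = 1 ∧ ‖r.1‖ * ‖r.2‖ ≤ K}
  have hR : ∀ r ∈ R, r.2 ∈ S.induced ∧ r.2 r.1 = 1 := fun r hr => ⟨hVS hr.1, hr.2.1⟩
  obtain ⟨v0, hv0, hv00⟩ : ∃ v ∈ V, v ≠ 0 := by
    obtain ⟨x, hx⟩ : ∃ x, f x ≠ 0 := by
      by_contra hcon
      push Not at hcon
      exact hf0 (ContinuousLinearMap.ext hcon)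
    obtain ⟨v, hv, hvx⟩ := hsep x (by
      rintro rfl
      exact hx (map_zero f))
    refine ⟨v, hv, ?_⟩
    rintro rfl
    exact hvx rfl
  obtain ⟨Φ, h1, h2⟩ := enlarge_fails hR (V : Set (StrongDual ℝ X)) hVS
    ⟨V, hVc.closure_eq.symm⟩ f hf0 (by
      rw [hVc.closure_eq]
      exact wsc_of_sep V hsep f)
    (fun a ha ha0 => by
      obtain ⟨x, hx1, hx2, hx3⟩ := hK a ha ha0
      exact ⟨x, ⟨ha, hx2, hx3⟩, hx1⟩)
    (by
      obtain ⟨x, hx1, hx2, hx3⟩ := hK v0 hv0 hv00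
      exact ⟨(x, v0), ⟨hv0, hx2, hx3⟩, hx1⟩)
  refine ⟨Idx S R, inferInstance, enlarge S R hR, Φ, ?_, enlarge_induced hR, h1, h2⟩
  obtain ⟨C, hC⟩ := hS
  refine ⟨max C K, fun a => ?_⟩
  cases a with
  | old s => exact (hC s).trans (le_max_left _ _)
  | new r =>
    refine le_trans ?_ (le_max_right _ _)
    change ‖r.1.2.smulRight r.1.1‖ ≤ K
    rw [ContinuousLinearMap.norm_smulRight_apply, mul_comm]
    exact r.2.2.2

/-- **The recipe fails in all spaces of dimension at least two.** -/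
theorem fails_always (S : Skeleton X Γ) (hX : 1 < Module.rank ℝ X) :
    ∃ (Γ' : Type u) (_ : PartialOrder Γ') (S' : Skeleton X Γ') (Φ : StrongDual ℝ X → Set X),
      S'.induced = S.induced ∧ S'.Recipe Φ ∧ ¬ IsGenerator S.induced Φ := by
  -- a functional
  obtain ⟨x0, hx0⟩ : ∃ x : X, x ≠ 0 := by
    by_contra hcon
    push Not at hcon
    have : Subsingleton X := ⟨fun a b => by rw [hcon a, hcon b]⟩
    rw [rank_subsingleton'] at hX
    exact absurd hX (by simp)
  obtain ⟨f, hf, hfx0⟩ := S.sep hx0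
  have hf0 : f ≠ 0 := by
    rintro rfl
    exact hfx0 rfl
  -- another one
  obtain ⟨x1, hx1, hfx1⟩ : ∃ x : X, x ≠ 0 ∧ f x = 0 := by
    by_contra hcon
    push Not at hcon
    have hinj : Function.Injective (f : X →ₗ[ℝ] ℝ) := by
      rw [← LinearMap.ker_eq_bot, LinearMap.ker_eq_bot']
      intro x hx
      by_contra hx'
      exact hcon x hx' hx
    have h1 := LinearMap.lift_rank_le_of_injective (f : X →ₗ[ℝ] ℝ) hinj
    rw [Module.rank_self, Cardinal.lift_one] at h1
    have h2 : Module.rank ℝ X ≤ 1 := by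
      have h3 : Cardinal.lift.{0} (Module.rank ℝ X) ≤ Cardinal.lift.{u} 1 := by
        simpa using h1
      simpa using h3
    exact absurd hX (not_lt.2 h2)
  obtain ⟨g, hg, hgx1⟩ := S.sep hx1
  have hgf : ∀ c : ℝ, g ≠ c • f := by
    rintro c rfl
    apply hgx1
    change c * f x1 = 0
    rw [hfx1, mul_zero]
  have hg0 : g ≠ 0 := by
    rintro rfl
    exact hgx1 rfl
  let A : Set (StrongDual ℝ X) := {a | a ∈ S.induced ∧ (a = 0 ∨ ∀ c : ℝ, a ≠ c • f)}
  let R : Set (X × StrongDual ℝ X) := {r | r.2 ∈ S.induced ∧ r.2 r.1 = 1}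
  have hR : ∀ r ∈ R, r.2 ∈ S.induced ∧ r.2 r.1 = 1 := fun r hr => hr
  have hAc : closure A = S.induced := by
    apply Set.Subset.antisymm
    · exact closure_minimal (fun a ha => ha.1) S.isClosed_induced
    · intro d hd
      by_cases hdA : d ∈ A
      · exact subset_closure hdA
      · obtain ⟨c, rfl⟩ : ∃ c : ℝ, d = c • f := by
          by_contra hcon
          push Not at hcon
          exact hdA ⟨hd, Or.inr hcon⟩
        have h1 : Tendsto (fun n : ℕ => c • f + (1 / ((n : ℝ) + 1)) • g) atTop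
            (𝓝 (c • f + (0 : ℝ) • g)) :=
          (tendsto_one_div_add_atTop_nhds_zero_nat.smul_const g).const_add _
        rw [zero_smul, add_zero] at h1
        refine mem_closure_of_tendsto h1 (Eventually.of_forall fun n => ?_)
        refine ⟨S.sub.add_mem hd (S.sub.smul_mem _ hg), Or.inr fun c' h => ?_⟩
        have h2 : (1 / ((n : ℝ) + 1)) ≠ 0 := by positivity
        apply hgf ((1 / ((n : ℝ) + 1))⁻¹ * (c' - c))
        have h3 : (1 / ((n : ℝ) + 1)) • g = (c' - c) • f := by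
          ext y
          have h4 := DFunLike.congr_fun h y
          change c * f y + (1 / ((n : ℝ) + 1)) * g y = c' * f y at h4
          change (1 / ((n : ℝ) + 1)) * g y = (c' - c) * f y
          linear_combination h4
        rw [mul_smul, ← h3, smul_smul, inv_mul_cancel₀ h2, one_smul]
  have hAR : ∀ a ∈ A, a ≠ 0 → ∃ x, (x, a) ∈ R ∧ f x = 0 := by
    rintro a ⟨ha, ha'⟩ ha0
    have ha'' : ∀ c : ℝ, a ≠ c • f := ha'.resolve_left ha0
    obtain ⟨x, hx1, hx2⟩ : ∃ x, f x = 0 ∧ a x ≠ 0 := by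
      by_contra hcon
      push Not at hcon
      obtain ⟨c, hc⟩ := smul_of_ker hcon
      exact ha'' c hc
    refine ⟨(a x)⁻¹ • x, ⟨ha, ?_⟩, ?_⟩
    · change a ((a x)⁻¹ • x) = 1
      rw [map_smul, smul_eq_mul, inv_mul_cancel₀ hx2]
    · rw [map_smul, hx1, smul_zero]
  have hgA : g ∈ A := ⟨hg, Or.inr hgf⟩
  obtain ⟨Φ, h1, h2⟩ := enlarge_fails hR A (fun a ha => ha.1) ⟨S.sub, hAc.symm⟩ f hf0
    (by rw [hAc]; exact self_mem_wsc hf) hAR (by
      obtain ⟨x, hx, hfx⟩ := hAR g hgA hg0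
      exact ⟨_, hx, hfx⟩)
  exact ⟨Idx S R, inferInstance, enlarge S R hR, Φ, enlarge_induced hR, h1, h2⟩

end Pool.Agent.Q33.PSk
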